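import Pool.Agent.P.MP_8fdf05_gt.Short
import Pool.Agent.P.MP_8fdf05_gt.Ctrl
import Pool.Agent.P.MP_8fdf05_gt.Flow

open Set Matrix Pool.Agent.P.MP_8fdf05_gt
open scoped ContDiff Manifold

namespace Pool.Agent.Results.MP_8fdf05_gt.ShortLife

/-- In every even dimension 2n, n at least 3, there is a compact symplectic manifold (M, ω0) such that, for
every positive ε, some almost Kaehler structure with fundamental form ω0 has the class path
(1 - 4(n+1)t) ω0, symplectic for all t below 1/(4(n+1)), while symplectic curvature flow starting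
there cannot exist beyond time ε. -/
theorem result : ∀ n : ℕ, 3 ≤ n →
    ∃ (ι : Type) (_ : Fintype ι) (_ : DecidableEq ι) (M : Type)
      (_ : TopologicalSpace M) (_ : ChartedSpace (ι → ℝ) M), Fintype.card ι = 2 * n ∧
      IsManifold 𝓘(ℝ, ι → ℝ) ∞ M ∧ CompactSpace M ∧ T2Space M ∧ ConnectedSpace M ∧
      ∃ ω0 : M → Matrix ι ι ℝ,
        (∀ t : ℝ, t < 1 / (4 * (n + 1)) → IsSymp ((1 - 4 * (n + 1) * t) • ω0)) ∧
        ∀ ε : ℝ, 0 < ε → ∃ (g0 J0 : M → Matrix ι ι ℝ) (θ : M → ι → ℝ), IsAK g0 J0 ∧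
          (∀ p, (J0 p)ᵀ * g0 p = ω0 p) ∧
          (∀ e ∈ atlas (ι → ℝ) M, ∀ a, ContDiffOn ℝ ∞ (fun z => form1 θ e z a) e.target) ∧
          (∀ e ∈ atlas (ι → ℝ) M, ∃ Λ : ι → Fld ι, ∀ z ∈ e.target,
            IsChern (form2 g0 e) (endo J0 e) Λ z ∧ ∀ t : ℝ,
              form2 ((1 - 4 * (n + 1) * t) • ω0) e z = om (form2 g0 e) (endo J0 e) z -
                t • (Pc (form2 g0 e) (endo J0 e) Λ z - dOne (form1 θ e) z)) ∧
          ∀ (T : ℝ) (g J : ℝ → M → Matrix ι ι ℝ), IsFlow T g J → g 0 = g0 → J 0 = J0 → T ≤ ε := by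
  intro n hn
  obtain ⟨m, rfl⟩ : ∃ m, n = m + 1 := ⟨n - 1, by omega⟩
  have hm : 2 ≤ m := by omega
  obtain ⟨r1, hr1, hini⟩ := init_good
  obtain ⟨τ, hτ, hcol⟩ := collapse hm hr1
  obtain ⟨M, _, _, ch, h1, h2, h3, h4, k1, k2, k3, k4, k5⟩ := exists_CP (Option (Fin m))
  have hc : IsCP ch := ⟨k1, k2, k3, k4, k5⟩
  obtain ⟨ω0, hω, hcl⟩ := class_exact hc
  refine ⟨II (Fin m), inferInstance, inferInstance, M, inferInstance, inferInstance,
    by simp [two_mul], h1, h2, h3, h4, ω0, fun t ht => hω.smul ?_, fun ε hε => ?_⟩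
  · rw [lt_div_iff₀ (by positivity)] at ht
    linarith
  have hQ : 0 < min τ ε / 2 := half_pos (lt_min hτ hε)
  have hQ' := half_lt_self (lt_min hτ hε)
  obtain ⟨η, hη, hini⟩ := hini _ hQ
  obtain ⟨g0, J0, θ, hak, hG, hJ, hom, hθ, hσ⟩ := hcl η hη
  refine ⟨g0, J0, θ, hak, hom, hθ,
    fun e he => ⟨_, fun z hz => ⟨(hak.chern hc he hz).1, fun t => ?_⟩⟩,
    fun T g J hf e1 e2 => ?_⟩
  · rw [(hak.chern hc he hz).2, hσ e he z hz, om_chart hom (hc.jac_ne he z), form2_smul, smul_smul]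
    simp only [sub_smul, one_smul, Fintype.card_option, Fintype.card_fin, mul_comm t]
  · by_contra hT
    rw [not_le] at hT
    have hT' : min τ ε / 2 < T := (hQ'.trans_le (min_le_right _ _)).trans hT
    obtain ⟨R, hR⟩ := red_of_flow (⟨0, by omega⟩ : Fin m) hc hη hf (e1 ▸ hG) (e2 ▸ hJ)
    have := hini _ T (hQ.trans hT') R hR
    revert R
    rw [Fintype.card_fin]
    exact fun R _ => hcol _ ⟨hQ, hQ'.trans_le (min_le_left _ _)⟩ T hT' R

/-- The negation of Q1 as an instance: n = 3, T1 = 1/32, T0 = ε = 1/64. -/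
theorem negation : ∃ (ι : Type) (_ : Fintype ι) (_ : DecidableEq ι) (M : Type)
    (_ : TopologicalSpace M) (_ : ChartedSpace (ι → ℝ) M),
    IsManifold 𝓘(ℝ, ι → ℝ) ∞ M ∧ CompactSpace M ∧ T2Space M ∧ ConnectedSpace M ∧
    ∃ (g0 J0 : M → Matrix ι ι ℝ) (θ : M → ι → ℝ) (T0 T1 : ℝ), IsAK g0 J0 ∧ 0 < T0 ∧ T0 < T1 ∧
      (∀ e ∈ atlas (ι → ℝ) M, ∀ a, ContDiffOn ℝ ∞ (fun z => form1 θ e z a) e.target) ∧
      (∀ t ∈ Icc 0 T1, ∃ σ : M → Matrix ι ι ℝ, IsSymp σ ∧ ∀ e ∈ atlas (ι → ℝ) M,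
        ∃ Λ : ι → Fld ι, ∀ z ∈ e.target, IsChern (form2 g0 e) (endo J0 e) Λ z ∧
          form2 σ e z = om (form2 g0 e) (endo J0 e) z -
            t • (Pc (form2 g0 e) (endo J0 e) Λ z - dOne (form1 θ e) z)) ∧
      ∀ (T : ℝ) (g J : ℝ → M → Matrix ι ι ℝ), IsFlow T g J → g 0 = g0 → J 0 = J0 → T ≤ T0 := by
  obtain ⟨ι, _, _, M, _, _, -, h1, h2, h3, h4, ω0, hω, h⟩ := result 3 le_rfl
  have hc : (0 : ℝ) < 1 / (4 * ((3 : ℕ) + 1)) := by positivity
  obtain ⟨g0, J0, θ, a1, -, a2, a3, a4⟩ := h _ (half_pos (half_pos hc))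
  exact ⟨ι, inferInstance, inferInstance, M, inferInstance, inferInstance, h1, h2, h3, h4, g0, J0,
    θ, _, _, a1, half_pos (half_pos hc), half_lt_self (half_pos hc), a2,
    fun t ht => ⟨_, hω t (ht.2.trans_lt (half_lt_self hc)), fun e he =>
      (a3 e he).imp fun _ h z hz => ⟨(h z hz).1, (h z hz).2 t⟩⟩, a4⟩

/-- Control (Fubini-Study): on one compact manifold of dimension 2n an almost Kaehler structure (g1, J1)
shrinks homothetically under the flow on the whole interval from 0 to 1/(4(n+1)), while structures with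
the same fundamental form die before any given positive time. -/
theorem control : ∀ n : ℕ, 3 ≤ n →
    ∃ (ι : Type) (_ : Fintype ι) (_ : DecidableEq ι) (M : Type)
      (_ : TopologicalSpace M) (_ : ChartedSpace (ι → ℝ) M), Fintype.card ι = 2 * n ∧
      IsManifold 𝓘(ℝ, ι → ℝ) ∞ M ∧ CompactSpace M ∧ T2Space M ∧ ConnectedSpace M ∧
      ∃ g1 J1 : M → Matrix ι ι ℝ, IsAK g1 J1 ∧
        IsFlow (1 / (4 * (n + 1))) (fun t => (1 - 4 * (n + 1) * t) • g1) (fun _ => J1) ∧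
        ∀ ε : ℝ, 0 < ε → ∃ g0 J0 : M → Matrix ι ι ℝ, IsAK g0 J0 ∧
          (∀ p, (J0 p)ᵀ * g0 p = (J1 p)ᵀ * g1 p) ∧
          ∀ (T : ℝ) (g J : ℝ → M → Matrix ι ι ℝ), IsFlow T g J → g 0 = g0 → J 0 = J0 → T ≤ ε :=
  long_and_short

/-- Control (non-Kaehler): a solution that is nowhere Kaehler and nowhere static, for all positive times, on
four-space (the known left invariant solution that descends to the Kodaira-Thurston manifold). -/
theorem non_kaehler_solution : ∃ (ι : Type) (_ : Fintype ι) (_ : DecidableEq ι),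
    Fintype.card ι = 4 ∧ ∃ g J : ℝ → (ι → ℝ) → Matrix ι ι ℝ, (∀ T, IsFlow T g J) ∧
      ∀ t z, (∃ i, DJ (g t) (J t) i z ≠ 0) ∧ Jrhs (g t) (J t) z ≠ 0 :=
  ⟨Fin 4, inferInstance, inferInstance, rfl, _, _, KT.isFlow, fun t z =>
    ⟨⟨0, KT.DJ_ne (pow_pos (KT.sc_pos t) 2).ne' (KT.sc_pos t).ne' z⟩,
      KT.Jrhs_ne (pow_pos (KT.sc_pos t) 2).ne' (KT.sc_pos t).ne' z⟩⟩

/-- Control (consistency): the two equations are consistent at every almost Kaehler structure, in particular at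
the initial data of the main theorem. The Chern connection exists and is unique; P is a closed two-form;
the velocity of J anticommutes with J; the velocity of g = ω J is symmetric, and where DJ vanishes
it is minus twice the Ricci tensor. -/
theorem equations_consistent {ι : Type} [Fintype ι] [DecidableEq ι] {M : Type}
    [TopologicalSpace M] [ChartedSpace (ι → ℝ) M] [IsManifold 𝓘(ℝ, ι → ℝ) ∞ M]
    (g0 J0 : M → Matrix ι ι ℝ) (h : IsAK g0 J0) : ∀ e ∈ atlas (ι → ℝ) M, ∀ g J : Fld ι,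
      g = form2 g0 e → J = endo J0 e → ∃ Λ : ι → Fld ι, ∀ z ∈ e.target, IsChern g J Λ z ∧
        (∀ Λ' : ι → Fld ι, IsChern g J Λ' z → ∀ i, Λ' i z = Λ i z) ∧
        (Pc g J Λ z)ᵀ = -Pc g J Λ z ∧ Closed (Pc g J Λ) z ∧
        J z * Jrhs g J z + Jrhs g J z * J z = 0 ∧
        (-Pc g J Λ z * J z + om g J z * Jrhs g J z)ᵀ =
          -Pc g J Λ z * J z + om g J z * Jrhs g J z ∧
        ((∀ i, DJ g J i z = 0) →
          -Pc g J Λ z * J z + om g J z * Jrhs g J z = (-2 : ℝ) • (g z * Rc g z)) := by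
  rintro e he _ _ rfl rfl
  have h0 : (0 : ℝ) ∈ Ico (0 : ℝ) 1 := ⟨le_rfl, one_pos⟩
  have hΛ := fun z hz => (isChern_iff (h.chartAK he) e.open_target h0 (z := z) hz _).2 fun _ => rfl
  exact ⟨_, fun z hz => ⟨hΛ z hz, fun Λ' => (isChern_iff (h.chartAK he) e.open_target h0 hz Λ').1,
    (h.chartAK he).tangent e.open_target h0 hΛ hz⟩⟩

end Pool.Agent.Results.MP_8fdf05_gt.ShortLife
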